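import Mathlib

set_option autoImplicit false

namespace Pool.Agent.Lib.MP_cff830_lc

/-- `C` is a vertex cover of `G`: every edge has an endpoint in `C`. -/
def IsVertexCover {V : Type} (G : SimpleGraph V) (C : Finset V) : Prop :=
  ∀ u v, G.Adj u v → u ∈ C ∨ v ∈ C

/-- The minimum weight of a vertex cover of `G`, for weights `w : V → ℕ`. -/
noncomputable def optCover {V : Type} (G : SimpleGraph V) (w : V → ℕ) : ℕ :=
  sInf {m | ∃ C : Finset V, IsVertexCover G C ∧ m = ∑ v ∈ C, w v}

/-- `F 0, ..., F (s-1)` are the functions computed by the gates of a `(min, +)` circuit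
(straight-line program) of size `s` with one input variable `w v` for every `v : V`: every gate is
an input variable, a real constant, or the minimum or the sum of two earlier gates. -/
def IsMinPlusCircuit {V : Type} (s : ℕ) (F : Fin s → (V → ℝ) → ℝ) : Prop :=
  ∀ i, (∃ v, ∀ w, F i w = w v) ∨ (∃ c : ℝ, ∀ w, F i w = c) ∨
    (∃ j < i, ∃ l < i, ∀ w, F i w = min (F j w) (F l w)) ∨
    (∃ j < i, ∃ l < i, ∀ w, F i w = F j w + F l w)

end Pool.Agent.Lib.MP_cff830_lc
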