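import Pool.Agent.Lib.MP_cff830_lc.TriGap

/-!
# Local linear programmes for vertex cover on hereditary classes of graphs
-/

set_option autoImplicit false
set_option linter.unusedSectionVars false

namespace Pool.Agent.Lib.MP_cff830_lc.Local

open Finset Classical
open Pool.Agent.Lib.MP_cff830_lc (IsVertexCover)
open Pool.Agent.Lib.FracGS (NoOdd walk_lower walk_upper)

/-- Rounding a feasible point of the odd walk linear programme on a hereditary class. -/
theorem rounding (P : ∀ V : Type, SimpleGraph V → Prop)
    (hP : ∀ (V W : Type) (G : SimpleGraph V) (H : SimpleGraph W), Nonempty (H ↪g G) →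
      P V G → P W H) (L : ℕ) (K : ℝ) (hK' : 1 ≤ K)
    (hheavy : ∀ (V : Type) [Fintype V] (G : SimpleGraph V), NoOdd G L →
      P V G → ∀ μ : V → ℝ, (∀ v, 0 ≤ μ v) →
        ∃ T : Finset V, (∀ u ∈ T, ∀ v ∈ T, ¬ G.Adj u v) ∧ ∑ v, μ v ≤ K * ∑ v ∈ T, μ v) :
    ∃ ε : ℝ, 0 < ε ∧ ε ≤ 1 ∧
    ∀ (V : Type) [Fintype V] (G : SimpleGraph V), P V G →
      ∀ w x : V → ℝ, (∀ v, 0 ≤ w v) → (∀ v, 0 ≤ x v) →
        (∀ u v, G.Adj u v → 1 ≤ x u + x v) →
        (∀ (v : V) (p : G.Walk v v), Odd p.length → p.length ≤ 2 * L + 1 →
          ((p.length : ℝ) + 1) / 2 ≤ (p.support.tail.map x).sum) →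
        ∃ C : Finset V, IsVertexCover G C ∧ ∑ v ∈ C, w v ≤ (2 - ε) * ∑ v, w v * x v := by
  set δ : ℝ := 1 / (8 * K * (2 * L + 1)) with hδ
  have hL0 : (0 : ℝ) ≤ L := Nat.cast_nonneg L
  have hδ0 : 0 < δ := by positivity
  have hδ1 : δ * (8 * K * (2 * L + 1)) = 1 := by
    rw [hδ]; field_simp
  have hδ2 : δ * (2 * L + 1) ≤ 1 / 8 := by
    have : δ * (2 * L + 1) * K = 1 / 8 := by linarith [hδ1]
    have h0 : 0 ≤ δ * (2 * L + 1) := by positivity
    nlinarith
  have hδ3 : δ * K ≤ 1 / 8 := by
    have : δ * K * (2 * L + 1) = 1 / 8 := by linarith [hδ1]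
    have h0 : 0 ≤ δ * K := by positivity
    nlinarith
  have hδ4 : δ ≤ 1 / 8 := by nlinarith
  refine ⟨δ, hδ0, by linarith, ?_⟩
  intro V _ G hG w x hw hx hE hO
  -- the middle part
  let B : Set V := {v | 1 / 2 - δ ≤ x v ∧ x v ≤ 1 / 2 + δ}
  let H : SimpleGraph B := G.induce B
  have hH : P B H := hP V B G H ⟨SimpleGraph.Embedding.induce B⟩ hG
  have hodd : NoOdd H L := by
    intro v p hp
    by_contra hne
    rw [Nat.not_even_iff_odd] at hne
    let φ : H →g G := (SimpleGraph.Embedding.induce B).toHom
    have h1 := hO (φ v) (p.map φ) (by rw [SimpleGraph.Walk.length_map]; exact hne)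
      (by rw [SimpleGraph.Walk.length_map]; exact hp)
    rw [SimpleGraph.Walk.length_map, SimpleGraph.Walk.support_map, ← List.map_tail,
      List.map_map] at h1
    have h2 : (p.support.tail.map (x ∘ φ)).sum ≤ p.length * (1 / 2 + δ) :=
      walk_upper H (x ∘ φ) (1 / 2 + δ) (fun b => b.2.2) p
    have h3 : ((p.length : ℝ) + 1) / 2 ≤ p.length * (1 / 2 + δ) := h1.trans h2
    have h4 : (p.length : ℝ) ≤ 2 * L + 1 := by exact_mod_cast hp
    have h5 : (p.length : ℝ) * δ ≤ (2 * L + 1) * δ := by nlinarith
    nlinarith
  obtain ⟨T, hT1, hT2⟩ := hheavy B H hodd hH (fun v => w v.1) (fun v => hw v.1)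
  -- the cover
  let T' : Finset V := T.map (Function.Embedding.subtype _)
  have hT'B : ∀ v ∈ T', v ∈ B := by
    intro v hv
    obtain ⟨b, _, rfl⟩ := Finset.mem_map.mp hv
    exact b.2
  have hT's : ∀ u ∈ T', ∀ v ∈ T', ¬ G.Adj u v := by
    intro u hu v hv huv
    obtain ⟨a, ha, rfl⟩ := Finset.mem_map.mp hu
    obtain ⟨b, hb, rfl⟩ := Finset.mem_map.mp hv
    exact hT1 a ha b hb huv
  let D : Finset V := Finset.univ.filter fun v => 1 / 2 - δ ≤ x v ∧ v ∉ T'
  refine ⟨D, ?_, ?_⟩
  · intro u v huv
    have h1 := hE u v huv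
    by_contra hcon
    push Not at hcon
    obtain ⟨hu, hv⟩ := hcon
    have hu' : x u < 1 / 2 - δ ∨ u ∈ T' := by
      by_contra h
      push Not at h
      exact hu (Finset.mem_filter.mpr ⟨Finset.mem_univ _, h.1, h.2⟩)
    have hv' : x v < 1 / 2 - δ ∨ v ∈ T' := by
      by_contra h
      push Not at h
      exact hv (Finset.mem_filter.mpr ⟨Finset.mem_univ _, h.1, h.2⟩)
    rcases hu' with hu' | hu' <;> rcases hv' with hv' | hv'
    · linarith
    · have := (hT'B v hv').2
      linarith
    · have := (hT'B u hu').2
      linarith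
    · exact hT's u hu' v hv' huv
  · -- weights
    have hT3 : ∑ v ∈ T, w v.1 = ∑ v ∈ T', w v := by
      rw [Finset.sum_map]; rfl
    have hB : ∑ b : B, w b.1 = ∑ v ∈ Finset.univ.filter (fun v => v ∈ B), w v := by
      rw [← Finset.sum_subtype_eq_sum_filter]
      simp
    rw [hT3, hB] at hT2
    set wB : ℝ := ∑ v ∈ Finset.univ.filter (fun v => v ∈ B), w v with hwB
    set wT : ℝ := ∑ v ∈ T', w v with hwT
    set wC : ℝ := ∑ v ∈ Finset.univ.filter (fun v => 1 / 2 + δ < x v), w v with hwC
    have hwB0 : 0 ≤ wB := Finset.sum_nonneg fun v _ => hw v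
    have hwC0 : 0 ≤ wC := Finset.sum_nonneg fun v _ => hw v
    -- the weight of the cover
    have hdis2 : Disjoint (Finset.univ.filter (fun v => v ∈ B))
        (Finset.univ.filter (fun v => 1 / 2 + δ < x v)) := by
      rw [Finset.disjoint_left]
      intro v hv hv'
      have h1 := ((Finset.mem_filter.mp hv).2).2
      have h2 := (Finset.mem_filter.mp hv').2
      linarith
    have e1 : ∑ v ∈ D, w v + wT = wB + wC := by
      have hdis : Disjoint D T' := by
        rw [Finset.disjoint_left]
        intro v hv
        exact (Finset.mem_filter.mp hv).2.2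
      rw [hwT, hwB, hwC, ← Finset.sum_union hdis, ← Finset.sum_union hdis2]
      refine Finset.sum_congr ?_ fun _ _ => rfl
      ext v
      simp only [Finset.mem_union, Finset.mem_filter, Finset.mem_univ, true_and, D]
      constructor
      · rintro (⟨h1, h2⟩ | h)
        · by_cases h3 : x v ≤ 1 / 2 + δ
          · exact Or.inl ⟨h1, h3⟩
          · exact Or.inr (not_le.mp h3)
        · exact Or.inl (hT'B v h)
      · rintro (h | h)
        · by_cases h3 : v ∈ T'
          · exact Or.inr h3
          · exact Or.inl ⟨h.1, h3⟩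
        · by_cases h3 : v ∈ T'
          · exact Or.inr h3
          · exact Or.inl ⟨by linarith, h3⟩
    have e2 : (1 / 2 - δ) * wB + (1 / 2 + δ) * wC ≤ ∑ v, w v * x v := by
      calc (1 / 2 - δ) * wB + (1 / 2 + δ) * wC
          ≤ ∑ v ∈ Finset.univ.filter (fun v => v ∈ B), w v * x v +
            ∑ v ∈ Finset.univ.filter (fun v => 1 / 2 + δ < x v), w v * x v := by
            rw [hwB, hwC, Finset.mul_sum, Finset.mul_sum]
            refine add_le_add (Finset.sum_le_sum fun v hv => ?_)
              (Finset.sum_le_sum fun v hv => ?_)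
            · have h1 := ((Finset.mem_filter.mp hv).2).1
              nlinarith [hw v]
            · have h1 := (Finset.mem_filter.mp hv).2
              nlinarith [hw v]
        _ = ∑ v ∈ Finset.univ.filter (fun v => v ∈ B) ∪
              Finset.univ.filter (fun v => 1 / 2 + δ < x v), w v * x v :=
            (Finset.sum_union hdis2).symm
        _ ≤ ∑ v, w v * x v :=
            Finset.sum_le_sum_of_subset_of_nonneg (Finset.subset_univ _)
              fun v _ _ => mul_nonneg (hw v) (hx v)
    have e3 : ∑ v ∈ D, w v = wB + wC - wT := by linarith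
    rw [e3]
    have h2δ : 0 < 2 - δ := by linarith
    have e4 : (2 - δ) * ((1 / 2 - δ) * wB + (1 / 2 + δ) * wC) ≤ (2 - δ) * ∑ v, w v * x v :=
      mul_le_mul_of_nonneg_left e2 h2δ.le
    refine le_trans ?_ e4
    -- `wB ≤ K wT`
    have e5 : δ * wB ≤ 1 / 8 * wT := by
      have : δ * wB ≤ δ * K * wT := by
        have := mul_le_mul_of_nonneg_left hT2 hδ0.le
        linarith
      have hwT0 : 0 ≤ wT := Finset.sum_nonneg fun v _ => hw v
      nlinarith
    nlinarith [mul_nonneg hδ0.le hwC0, mul_nonneg (mul_nonneg hδ0.le hδ0.le) hwC0,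
      mul_nonneg (mul_nonneg hδ0.le hδ0.le) hwB0, mul_nonneg hδ0.le hwB0]

/-- An odd closed walk contains an odd closed walk of length at most the number of vertices. -/
theorem exists_short_odd {V : Type} [Fintype V] (G : SimpleGraph V) :
    ∀ (n : ℕ) (v : V) (p : G.Walk v v), p.length = n → Odd p.length →
      ∃ (u : V) (q : G.Walk u u), Odd q.length ∧ q.length ≤ Fintype.card V := by
  intro n
  induction n using Nat.strong_induction_on with
  | _ n ih =>
    intro v p hn hodd
    by_cases hle : p.length ≤ Fintype.card V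
    · exact ⟨v, p, hodd, hle⟩
    · push Not at hle
      -- two equal vertices
      have hcard : Fintype.card V < Fintype.card (Fin p.length) := by
        rw [Fintype.card_fin]; exact hle
      obtain ⟨i, j, hij, heq⟩ := Fintype.exists_ne_map_eq_of_card_lt
        (fun i : Fin p.length => p.getVert i.1) hcard
      wlog hlt : i.1 < j.1 with H
      · have hne : i.1 ≠ j.1 := fun h => hij (Fin.ext h)
        exact H G n ih v p hn hodd hle hcard j i (Ne.symm hij) heq.symm (by omega)
      have hj := j.2
      let q1 : G.Walk (p.getVert i.1) (p.getVert i.1) :=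
        ((p.drop i.1).take (j.1 - i.1)).copy rfl (by
          rw [SimpleGraph.Walk.drop_getVert]
          rw [show i.1 + (j.1 - i.1) = j.1 by omega, heq])
      have hq1 : q1.length = j.1 - i.1 := by
        simp only [q1, SimpleGraph.Walk.length_copy, SimpleGraph.Walk.take_length,
          SimpleGraph.Walk.drop_length]
        omega
      let q2 : G.Walk v v := (p.take i.1).append ((p.drop j.1).copy heq.symm rfl)
      have hq2 : q2.length = i.1 + (p.length - j.1) := by
        simp only [q2, SimpleGraph.Walk.length_append, SimpleGraph.Walk.length_copy,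
          SimpleGraph.Walk.take_length, SimpleGraph.Walk.drop_length]
        omega
      have hsum : q1.length + q2.length = p.length := by omega
      rcases Nat.even_or_odd q1.length with he | ho
      · have ho2 : Odd q2.length := by
          rw [← hsum] at hodd
          rw [Nat.odd_add] at hodd
          by_contra hcon
          rw [Nat.not_odd_iff_even] at hcon
          exact (Nat.not_even_iff_odd.2 (hodd.2 hcon)) he
        exact ih q2.length (by omega) v q2 rfl ho2
      · exact ih q1.length (by omega) _ q1 rfl ho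

/-- The `0/1` vectors of the vertex covers of `H`. -/
def coverVectors {W : Type} (H : SimpleGraph W) : Set (W → ℝ) :=
  {y | (∀ v, y v = 0 ∨ y v = 1) ∧ ∀ u v, H.Adj u v → y u = 1 ∨ y v = 1}

theorem sum_map_isLinear {W : Type} (l : List W) :
    IsLinearMap ℝ (fun y : W → ℝ => (l.map y).sum) := by
  induction l with
  | nil => exact ⟨fun _ _ => by simp, fun _ _ => by simp⟩
  | cons a l ih =>
    refine ⟨fun x y => ?_, fun c x => ?_⟩
    · have h1 := ih.1 x y
      simp only [List.map_cons, List.sum_cons, Pi.add_apply]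
      rw [h1]
      ring
    · have h1 := ih.2 c x
      simp only [smul_eq_mul] at h1
      simp only [List.map_cons, List.sum_cons, Pi.smul_apply, smul_eq_mul]
      rw [h1]
      ring

/-- A lower bound for a sum of coordinates passes from the vertex covers to their convex hull. -/
theorem hull_le {W : Type} (H : SimpleGraph W) (l : List W) (c : ℝ)
    (h : ∀ y ∈ coverVectors H, c ≤ (l.map y).sum) {x : W → ℝ}
    (hx : x ∈ convexHull ℝ (coverVectors H)) : c ≤ (l.map x).sum :=
  (convexHull_min (fun y hy => h y hy) (convex_halfSpace_ge (sum_map_isLinear l) c)) hx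

/-- The odd walk inequality for vertex covers. -/
theorem cover_walk {W : Type} (H : SimpleGraph W) {y : W → ℝ} (hy : y ∈ coverVectors H)
    {v : W} (p : H.Walk v v) (hp : Odd p.length) :
    ((p.length : ℝ) + 1) / 2 ≤ (p.support.tail.map y).sum := by
  have hE : ∀ u v, H.Adj u v → (1 : ℝ) ≤ y u + y v := by
    intro u v huv
    rcases hy.2 u v huv with h | h
    · rcases hy.1 v with h' | h' <;> rw [h, h'] <;> norm_num
    · rcases hy.1 u with h' | h' <;> rw [h, h'] <;> norm_num
  have h1 := walk_lower H y hE p
  have h2 : ∃ N : ℕ, (p.support.tail.map y).sum = N := by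
    induction p.support.tail with
    | nil => exact ⟨0, by simp⟩
    | cons a l ih =>
      obtain ⟨N, hN⟩ := ih
      rw [List.map_cons, List.sum_cons, hN]
      rcases hy.1 a with ha | ha
      · exact ⟨N, by rw [ha]; ring⟩
      · exact ⟨N + 1, by rw [ha]; push_cast; ring⟩
  obtain ⟨N, hN⟩ := h2
  rw [hN] at h1 ⊢
  have h3 : p.length ≤ 2 * N := by
    have : (p.length : ℝ) ≤ 2 * N := by linarith
    exact_mod_cast this
  have h4 : p.length + 1 ≤ 2 * N := by
    obtain ⟨k, hk⟩ := hp
    omega
  have h5 : (p.length : ℝ) + 1 ≤ 2 * N := by exact_mod_cast h4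
  linarith

/-- Local feasibility implies the odd walk inequalities. -/
theorem walk_of_local {V : Type} [Fintype V] (G : SimpleGraph V) (k : ℕ) (x : V → ℝ)
    (hx : ∀ S : Set V, S.ncard ≤ k →
      (fun v : S => x v) ∈ convexHull ℝ (coverVectors (G.induce S)))
    {v : V} (p : G.Walk v v) (hp : Odd p.length) (hk : p.length ≤ k) :
    ((p.length : ℝ) + 1) / 2 ≤ (p.support.tail.map x).sum := by
  set S : Set V := {u | u ∈ p.support} with hS
  have hcard : S.ncard ≤ p.length := by
    have h0 : p.support = v :: p.support.tail := (SimpleGraph.Walk.cons_tail_support p).symm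
    have hv : v ∈ p.support.tail := by
      apply SimpleGraph.Walk.end_mem_tail_support
      intro hnil
      have h1 : p.length = 0 := SimpleGraph.Walk.length_eq_zero_iff.2 hnil
      rw [h1] at hp
      exact absurd hp (by decide)
    have h1 : S = {u | u ∈ p.support.tail} := by
      ext u
      show u ∈ p.support ↔ u ∈ p.support.tail
      constructor
      · intro hu
        rw [h0] at hu
        rcases List.mem_cons.1 hu with h | h
        · rw [h]; exact hv
        · exact h
      · intro hu
        exact List.mem_of_mem_tail hu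
    have h2 : (S : Set V) = (p.support.tail.toFinset : Set V) := by
      rw [h1]; ext u; simp
    rw [h2, Set.ncard_coe_finset]
    refine (List.toFinset_card_le _).trans ?_
    simp
  have hmem := hx S (hcard.trans hk)
  set q := p.induce S (fun u hu => hu) with hq
  have hql : q.length = p.length := by
    have h1 := congrArg SimpleGraph.Walk.length (SimpleGraph.Walk.map_induce p (fun u hu => hu))
    rw [SimpleGraph.Walk.length_map] at h1
    exact h1
  have hqs : q.support.map (fun u : S => (u : V)) = p.support := by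
    rw [hq, SimpleGraph.Walk.support_induce]
    simp
  have h1 := hull_le (G.induce S) q.support.tail (((q.length : ℝ) + 1) / 2)
    (fun y hy => cover_walk (G.induce S) hy q (by rw [hql]; exact hp)) hmem
  rw [hql] at h1
  have h2 : (q.support.tail.map fun v : S => x v) = p.support.tail.map x := by
    rw [← hqs, ← List.map_tail, List.map_map]
    rfl
  rw [h2] at h1
  exact h1

/-- Points on a bipartite graph: the vector `1/2` is a convex combination of covers. -/
theorem half_mem {W : Type} (H : SimpleGraph W) (hH : H.Colorable 2) :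
    (fun _ : W => (1 / 2 : ℝ)) ∈ convexHull ℝ (coverVectors H) := by
  obtain ⟨c⟩ := hH
  have h0 : (fun v : W => if c v = 0 then (1 : ℝ) else 0) ∈ coverVectors H := by
    refine ⟨fun v => ?_, fun u v huv => ?_⟩
    · show (if c v = 0 then (1 : ℝ) else 0) = 0 ∨ (if c v = 0 then (1 : ℝ) else 0) = 1
      split_ifs <;> simp
    · show (if c u = 0 then (1 : ℝ) else 0) = 1 ∨ (if c v = 0 then (1 : ℝ) else 0) = 1
      have hne := c.valid huv
      have : c u = 0 ∨ c v = 0 := by
        generalize c u = a at hne
        generalize c v = b at hne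
        revert a b
        decide
      rcases this with h | h
      · left; rw [if_pos h]
      · right; rw [if_pos h]
  have h1 : (fun v : W => if c v = 0 then (0 : ℝ) else 1) ∈ coverVectors H := by
    refine ⟨fun v => ?_, fun u v huv => ?_⟩
    · show (if c v = 0 then (0 : ℝ) else 1) = 0 ∨ (if c v = 0 then (0 : ℝ) else 1) = 1
      split_ifs <;> simp
    · show (if c u = 0 then (0 : ℝ) else 1) = 1 ∨ (if c v = 0 then (0 : ℝ) else 1) = 1
      have hne := c.valid huv
      have : c u ≠ 0 ∨ c v ≠ 0 := by
        by_contra hcon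
        push Not at hcon
        exact hne (hcon.1.trans hcon.2.symm)
      rcases this with h | h
      · left; rw [if_neg h]
      · right; rw [if_neg h]
  have h2 := (convex_convexHull ℝ (coverVectors H)) (subset_convexHull ℝ _ h0)
    (subset_convexHull ℝ _ h1) (by norm_num : (0 : ℝ) ≤ 1 / 2) (by norm_num : (0 : ℝ) ≤ 1 / 2)
    (by norm_num)
  convert h2 using 1
  funext v
  simp only [Pi.add_apply, Pi.smul_apply, smul_eq_mul]
  split_ifs <;> norm_num

/-- A graph without short odd closed walks is locally bipartite. -/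
theorem local_bip {V : Type} [Fintype V] (G : SimpleGraph V) (k : ℕ)
    (hG : ∀ (v : V) (p : G.Walk v v), p.length ≤ k → Even p.length) (S : Set V)
    (hS : S.ncard ≤ k) : (G.induce S).Colorable 2 := by
  rw [SimpleGraph.two_colorable_iff_forall_loop_even]
  intro u p
  by_contra hcon
  rw [Nat.not_even_iff_odd] at hcon
  obtain ⟨u', q, hq1, hq2⟩ := exists_short_odd (G.induce S) p.length u p rfl hcon
  have h1 := hG _ (q.map (SimpleGraph.Embedding.induce S).toHom) (by
    rw [SimpleGraph.Walk.length_map]
    refine hq2.trans (le_trans (le_of_eq ?_) hS)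
    rw [Set.ncard_eq_toFinset_card', Set.toFinset_card])
  rw [SimpleGraph.Walk.length_map] at h1
  exact (Nat.not_even_iff_odd.2 hq1) h1

/-- A closed walk of odd length without repeated vertices is a cycle. -/
theorem isCycle_of_nodup {V : Type} {G : SimpleGraph V} {v : V} (p : G.Walk v v)
    (hodd : Odd p.length) (hnd : p.support.tail.Nodup) : p.IsCycle := by
  cases p with
  | nil => exact absurd hodd (by simp)
  | @cons _ a _ h q =>
    rw [SimpleGraph.Walk.cons_isCycle_iff]
    have hq : q.IsPath := by
      rw [SimpleGraph.Walk.isPath_def]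
      simpa using hnd
    refine ⟨hq, fun hmem => ?_⟩
    cases q with
    | nil => exact G.loopless.irrefl _ h
    | @cons _ b _ h' r =>
      rw [SimpleGraph.Walk.edges_cons, List.mem_cons] at hmem
      have hnd' := hq
      rw [SimpleGraph.Walk.cons_isPath_iff] at hnd'
      rcases hmem with hmem | hmem
      · have hb : b = v := by
          rw [Sym2.eq_iff] at hmem
          rcases hmem with ⟨h1, h2⟩ | ⟨h1, h2⟩
          · exact absurd h1 h.ne
          · exact h1.symm
        subst hb
        have hr : r.length = 0 := by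
          exact SimpleGraph.Walk.length_eq_zero_iff.2
            (SimpleGraph.Walk.isPath_iff_nil.1 hnd'.1)
        simp only [SimpleGraph.Walk.length_cons, hr] at hodd
        exact absurd hodd (by decide)
      · exact hnd'.2 (SimpleGraph.Walk.snd_mem_support_of_mem_edges r hmem)

/-- If every odd cycle is longer than `g`, then so is every closed walk of odd length. -/
theorem even_of_odd_girth {V : Type} (G : SimpleGraph V) (g : ℕ)
    (hg : ∀ (v : V) (p : G.Walk v v), p.IsCycle → Odd p.length → g < p.length) :
    ∀ (n : ℕ) (v : V) (p : G.Walk v v), p.length = n → n ≤ g → Even n := by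
  intro n
  induction n using Nat.strong_induction_on with
  | _ n ih =>
    intro v p hn hng
    by_contra hcon
    rw [Nat.not_even_iff_odd] at hcon
    by_cases hnd : p.support.tail.Nodup
    · have h1 := hg v p (isCycle_of_nodup p (hn ▸ hcon) hnd) (hn ▸ hcon)
      omega
    · rw [List.nodup_iff_injective_get] at hnd
      have hlen : p.support.tail.length = p.length := by simp
      simp only [Function.Injective] at hnd
      push Not at hnd
      obtain ⟨i, j, heq, hij⟩ := hnd
      wlog hlt : i.1 < j.1 with H
      · have hne : i.1 ≠ j.1 := fun h => hij (Fin.ext h)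
        exact H G g hg n ih v p hn hng hcon hlen j i heq.symm (Ne.symm hij) (by omega)
      have hi := i.2
      have hj := j.2
      have heq' : p.getVert (i.1 + 1) = p.getVert (j.1 + 1) := by
        rw [SimpleGraph.Walk.getVert_eq_support_getElem p (by omega),
          SimpleGraph.Walk.getVert_eq_support_getElem p (by omega)]
        have h1 : p.support.tail.get i = p.support.tail.get j := heq
        simpa [List.get_eq_getElem, List.getElem_tail] using h1
      let q1 : G.Walk (p.getVert (i.1 + 1)) (p.getVert (i.1 + 1)) :=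
        ((p.drop (i.1 + 1)).take (j.1 - i.1)).copy rfl (by
          rw [SimpleGraph.Walk.drop_getVert]
          rw [show i.1 + 1 + (j.1 - i.1) = j.1 + 1 by omega, heq'])
      have hq1 : q1.length = j.1 - i.1 := by
        simp only [q1, SimpleGraph.Walk.length_copy, SimpleGraph.Walk.take_length,
          SimpleGraph.Walk.drop_length]
        omega
      let q2 : G.Walk v v := (p.take (i.1 + 1)).append ((p.drop (j.1 + 1)).copy heq'.symm rfl)
      have hq2 : q2.length = (i.1 + 1) + (p.length - (j.1 + 1)) := by
        simp only [q2, SimpleGraph.Walk.length_append, SimpleGraph.Walk.length_copy,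
          SimpleGraph.Walk.take_length, SimpleGraph.Walk.drop_length]
        omega
      have h1 := ih q1.length (by omega) _ q1 rfl (by omega)
      have h2 := ih q2.length (by omega) _ q2 rfl (by omega)
      have h3 : q1.length + q2.length = n := by omega
      exact (Nat.not_even_iff_odd.2 hcon) (h3 ▸ h1.add h2)

/-- Averaging a fractional colouring. -/
theorem stable_of_fractional {V : Type} [Fintype V] (G : SimpleGraph V) (c : Finset V → ℝ)
    (h1 : ∀ S, 0 ≤ c S) (h2 : ∀ S, c S ≠ 0 → ∀ u ∈ S, ∀ v ∈ S, ¬ G.Adj u v)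
    (h3 : ∀ v, 1 ≤ ∑ S ∈ (Finset.univ : Finset (Finset V)).filter (fun S => v ∈ S), c S)
    (K : ℝ) (hK : ∑ S, c S ≤ K) (μ : V → ℝ) (hμ : ∀ v, 0 ≤ μ v) :
    ∃ T : Finset V, (∀ u ∈ T, ∀ v ∈ T, ¬ G.Adj u v) ∧ ∑ v, μ v ≤ K * ∑ v ∈ T, μ v := by
  by_contra hcon
  push Not at hcon
  have hK0 : 0 ≤ K := (Finset.sum_nonneg fun S _ => h1 S).trans hK
  have hempty := hcon ∅ (fun u hu => absurd hu (Finset.notMem_empty u))
  rw [Finset.sum_empty, mul_zero] at hempty
  set M : ℝ := ∑ v, μ v with hM
  have e1 : M ≤ ∑ S : Finset V, c S * ∑ v ∈ S, μ v := by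
    have e2 : ∑ S : Finset V, c S * ∑ v ∈ S, μ v =
        ∑ v, μ v * ∑ S ∈ (Finset.univ : Finset (Finset V)).filter (fun S => v ∈ S), c S := by
      have e3 : ∀ S : Finset V, c S * ∑ v ∈ S, μ v = ∑ v, if v ∈ S then c S * μ v else 0 := by
        intro S
        rw [Finset.mul_sum, ← Finset.sum_filter]
        refine Finset.sum_congr ?_ fun _ _ => rfl
        ext v; simp
      rw [Finset.sum_congr rfl fun S _ => e3 S, Finset.sum_comm]
      refine Finset.sum_congr rfl fun v _ => ?_
      rw [Finset.mul_sum, Finset.sum_filter]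
      refine Finset.sum_congr rfl fun S _ => ?_
      split_ifs
      · ring
      · rfl
    rw [e2, hM]
    refine Finset.sum_le_sum fun v _ => ?_
    nlinarith [hμ v, h3 v]
  -- some stable set has positive coefficient
  have hK1 : 0 < K := by
    rcases hK0.eq_or_lt with h | h
    · exfalso
      have h0 : ∀ S, c S = 0 := by
        intro S
        have := Finset.single_le_sum (fun S _ => h1 S) (Finset.mem_univ S)
        linarith [h1 S]
      have : ∑ S : Finset V, c S * ∑ v ∈ S, μ v = 0 :=
        Finset.sum_eq_zero fun S _ => by rw [h0 S, zero_mul]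
      linarith
    · exact h
  have e4 : ∀ S : Finset V, c S * ∑ v ∈ S, μ v ≤ c S * (M / K) := by
    intro S
    by_cases hS : c S = 0
    · rw [hS, zero_mul, zero_mul]
    · have h4 := hcon S (h2 S hS)
      refine mul_le_mul_of_nonneg_left ?_ (h1 S)
      rw [le_div_iff₀ hK1]
      linarith
  have hpos : ∃ S, 0 < c S := by
    by_contra hno
    push Not at hno
    have h0 : ∀ S, c S = 0 := fun S => le_antisymm (hno S) (h1 S)
    have : ∑ S : Finset V, c S * ∑ v ∈ S, μ v = 0 :=
      Finset.sum_eq_zero fun S _ => by rw [h0 S, zero_mul]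
    linarith
  obtain ⟨S0, hS0⟩ := hpos
  have e5 : ∑ S : Finset V, c S * ∑ v ∈ S, μ v < ∑ S : Finset V, c S * (M / K) := by
    refine Finset.sum_lt_sum (fun S _ => e4 S) ⟨S0, Finset.mem_univ _, ?_⟩
    refine mul_lt_mul_of_pos_left ?_ hS0
    rw [lt_div_iff₀ hK1]
    have := hcon S0 (h2 S0 hS0.ne')
    linarith
  rw [← Finset.sum_mul] at e5
  have e6 : (∑ S : Finset V, c S) * (M / K) ≤ K * (M / K) :=
    mul_le_mul_of_nonneg_right hK (by positivity)
  have e7 : K * (M / K) = M := by field_simp
  linarith

end Pool.Agent.Lib.MP_cff830_lc.Local
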