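import Mathlib

/-!
# Pulling back solutions of the Sherali-Adams hierarchy along homomorphisms
-/

set_option autoImplicit false

open Finset

namespace Pool.Agent.Lib.MP_cff830_lc.Pull

variable {V V₀ : Type} [DecidableEq V] [DecidableEq V₀]

/-- The random set of the image, pulled back: all copies of a point get the same value. -/
def pull (φ : V → V₀) (μ : Finset V₀ → Finset V₀ → ℝ) (S U : Finset V) : ℝ :=
  ∑ W ∈ (S.image φ).powerset with (S.filter fun v => φ v ∈ W) = U, μ (S.image φ) W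

theorem pull_nonneg (φ : V → V₀) (μ : Finset V₀ → Finset V₀ → ℝ) (h : ∀ S U, 0 ≤ μ S U)
    (S U : Finset V) : 0 ≤ pull φ μ S U :=
  Finset.sum_nonneg fun _ _ => h _ _

theorem pull_total (φ : V → V₀) (μ : Finset V₀ → Finset V₀ → ℝ) (k : ℕ)
    (h : ∀ S, S.card ≤ k → ∑ U ∈ S.powerset, μ S U = 1) (S : Finset V) (hS : S.card ≤ k) :
    ∑ U ∈ S.powerset, pull φ μ S U = 1 := by
  rw [← h (S.image φ) (card_image_le.trans hS)]
  exact Finset.sum_fiberwise_of_maps_to
    (fun W _ => mem_powerset.2 (filter_subset (fun v => φ v ∈ W) S)) _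

theorem filter_inter_image (φ : V → V₀) (S : Finset V) (W : Finset V₀) :
    (S.filter fun v => φ v ∈ W ∩ S.image φ) = S.filter fun v => φ v ∈ W := by
  refine Finset.filter_congr fun v hv => ?_
  rw [mem_inter]
  exact ⟨fun h => h.1, fun h => ⟨h, mem_image_of_mem φ hv⟩⟩

theorem filter_inter_subset (φ : V → V₀) {S T : Finset V} (hST : S ⊆ T) (W : Finset V₀) :
    (T.filter fun v => φ v ∈ W) ∩ S = S.filter fun v => φ v ∈ W := by
  ext v
  simp only [mem_inter, mem_filter]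
  exact ⟨fun h => ⟨h.2, h.1.2⟩, fun h => ⟨⟨hST h.1, h.2⟩, h.1⟩⟩

theorem pull_cons (φ : V → V₀) (μ : Finset V₀ → Finset V₀ → ℝ) (k : ℕ)
    (h : ∀ S T, S ⊆ T → T.card ≤ k → ∀ U, U ⊆ S →
      μ S U = ∑ W ∈ T.powerset with W ∩ S = U, μ T W)
    (S T : Finset V) (hST : S ⊆ T) (hT : T.card ≤ k) (U : Finset V) :
    pull φ μ S U = ∑ W ∈ T.powerset with W ∩ S = U, pull φ μ T W := by
  have hi : S.image φ ⊆ T.image φ := image_subset_image hST
  have hc : (T.image φ).card ≤ k := card_image_le.trans hT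
  set A : Finset (Finset V₀) :=
    (T.image φ).powerset.filter fun W => (S.filter fun v => φ v ∈ W) = U with hA
  have h1 : pull φ μ S U = ∑ W ∈ A, μ (T.image φ) W := by
    unfold pull
    rw [← Finset.sum_fiberwise_of_maps_to (s := A)
      (t := (S.image φ).powerset.filter fun W => (S.filter fun v => φ v ∈ W) = U)
      (g := fun W => W ∩ S.image φ) (f := fun W => μ (T.image φ) W)]
    · refine Finset.sum_congr rfl fun W hW => ?_
      obtain ⟨hW1, hW2⟩ := mem_filter.1 hW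
      rw [h (S.image φ) (T.image φ) hi hc W (mem_powerset.1 hW1)]
      refine Finset.sum_congr ?_ fun _ _ => rfl
      ext W'
      simp only [hA, mem_filter, mem_powerset]
      constructor
      · rintro ⟨h2, h3⟩
        refine ⟨⟨h2, ?_⟩, h3⟩
        rw [← filter_inter_image, h3]
        exact hW2
      · rintro ⟨⟨h2, _⟩, h3⟩
        exact ⟨h2, h3⟩
    · intro W hW
      obtain ⟨hW1, hW2⟩ := mem_filter.1 hW
      refine mem_filter.2 ⟨mem_powerset.2 inter_subset_right, ?_⟩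
      rw [filter_inter_image]
      exact hW2
  rw [h1]
  unfold pull
  rw [← Finset.sum_fiberwise_of_maps_to (s := A)
      (t := T.powerset.filter fun W => W ∩ S = U)
      (g := fun W => T.filter fun v => φ v ∈ W) (f := fun W => μ (T.image φ) W)]
  · refine Finset.sum_congr rfl fun W hW => ?_
    obtain ⟨hW1, hW2⟩ := mem_filter.1 hW
    refine Finset.sum_congr ?_ fun _ _ => rfl
    ext W'
    simp only [hA, mem_filter, mem_powerset]
    constructor
    · rintro ⟨⟨h2, _⟩, h3⟩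
      exact ⟨h2, h3⟩
    · rintro ⟨h2, h3⟩
      refine ⟨⟨h2, ?_⟩, h3⟩
      rw [← filter_inter_subset φ hST, h3]
      exact hW2
  · intro W hW
    obtain ⟨hW1, hW2⟩ := mem_filter.1 hW
    refine mem_filter.2 ⟨mem_powerset.2 (filter_subset _ _), ?_⟩
    rw [filter_inter_subset φ hST]
    exact hW2

theorem pull_cover (G : SimpleGraph V) (G₀ : SimpleGraph V₀) (φ : V → V₀)
    (hφ : ∀ u v, G.Adj u v → G₀.Adj (φ u) (φ v)) (μ : Finset V₀ → Finset V₀ → ℝ) (k : ℕ)
    (h : ∀ S, S.card ≤ k → ∀ U, U ⊆ S → μ S U ≠ 0 → ∀ x ∈ S, ∀ y ∈ S, G₀.Adj x y →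
      x ∈ U ∨ y ∈ U)
    (S : Finset V) (hS : S.card ≤ k) (U : Finset V) (hU : pull φ μ S U ≠ 0) :
    ∀ x ∈ S, ∀ y ∈ S, G.Adj x y → x ∈ U ∨ y ∈ U := by
  intro x hx y hy hxy
  obtain ⟨W, hW, hW0⟩ := Finset.exists_ne_zero_of_sum_ne_zero hU
  obtain ⟨hW1, hW2⟩ := mem_filter.1 hW
  rw [← hW2]
  rcases h _ (card_image_le.trans hS) W (mem_powerset.1 hW1) hW0 (φ x) (mem_image_of_mem φ hx)
    (φ y) (mem_image_of_mem φ hy) (hφ x y hxy) with h1 | h1
  · exact Or.inl (mem_filter.2 ⟨hx, h1⟩)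
  · exact Or.inr (mem_filter.2 ⟨hy, h1⟩)

theorem pull_self (φ : V → V₀) (μ : Finset V₀ → Finset V₀ → ℝ) (A : Finset V) :
    pull φ μ A A = μ (A.image φ) (A.image φ) := by
  unfold pull
  rw [Finset.sum_eq_single (A.image φ)]
  · intro W hW hne
    obtain ⟨hW1, hW2⟩ := mem_filter.1 hW
    refine absurd (Finset.Subset.antisymm (mem_powerset.1 hW1) ?_) hne
    intro x hx
    obtain ⟨v, hv, rfl⟩ := mem_image.1 hx
    rw [← hW2] at hv
    exact (mem_filter.1 hv).2
  · intro hcon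
    refine absurd (mem_filter.2 ⟨mem_powerset.2 (Finset.Subset.refl _), ?_⟩) hcon
    exact Finset.filter_true_of_mem fun v hv => mem_image_of_mem φ hv

theorem sum_pull [Fintype V] [Fintype V₀] (φ : V → V₀) (f : V₀ → ℝ) (hf : ∀ x, 0 ≤ f x) (M : ℕ)
    (hM : ∀ x, {v : V | φ v = x}.ncard ≤ M) : ∑ v, f (φ v) ≤ M * ∑ x, f x := by
  rw [← Finset.sum_fiberwise (s := (univ : Finset V)) (g := φ) (f := fun v => f (φ v)),
    Finset.mul_sum]
  refine Finset.sum_le_sum fun x _ => ?_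
  have h1 : ∑ v ∈ univ with φ v = x, f (φ v) = (univ.filter fun v => φ v = x).card * f x := by
    rw [← nsmul_eq_mul, ← Finset.sum_const]
    refine Finset.sum_congr rfl fun v hv => ?_
    rw [(mem_filter.1 hv).2]
  rw [h1]
  refine mul_le_mul_of_nonneg_right ?_ (hf x)
  have h2 := hM x
  rw [← Set.ncard_coe_finset]
  have h3 : ((univ.filter fun v => φ v = x : Finset V) : Set V) = {v : V | φ v = x} := by
    ext v
    simp
  rw [h3]
  exact_mod_cast h2

end Pool.Agent.Lib.MP_cff830_lc.Pull
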