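import Pool.Agent.Lib.GSI.Erdos

/-!
# Sparse blow-ups of large girth

`exists_sparse`: every finite graph `G₀` has sparse random blow-ups `G → G₀` without short cycles
whose stable sets have about the same density as those of `G₀`.
-/

set_option autoImplicit false

open Finset

namespace Pool.Agent.Lib.MP_cff830_lc.Sparse

/-- `ω` has two disjoint sets of size `s` without a pair of colour `0` between them. -/
def HasHole {N r : ℕ} (s : ℕ) (ω : Sym2 (Fin N) → Fin (r + 1)) : Prop :=
  ∃ A B : Finset (Fin N), A.card = s ∧ B.card = s ∧ Disjoint A B ∧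
    ∀ a ∈ A, ∀ b ∈ B, ω s(a, b) ≠ 0

theorem card_hasHole (r N s : ℕ) (hs : (2 * N + 2) * (r + 1) ≤ s * s) :
    by classical exact
    4 * (univ.filter fun ω : Sym2 (Fin N) → Fin (r + 1) => HasHole s ω).card ≤
      (r + 1) ^ (Fintype.card (Sym2 (Fin N))) := by
  classical
  set Q := (r + 1) ^ (Fintype.card (Sym2 (Fin N))) with hQ
  set F : Finset (Finset (Fin N) × Finset (Fin N)) :=
    ((univ : Finset (Fin N)).powersetCard s ×ˢ (univ : Finset (Fin N)).powersetCard s).filter
      (fun p => Disjoint p.1 p.2) with hF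
  set T : Finset (Fin N) × Finset (Fin N) → Finset (Sym2 (Fin N)) := fun p =>
    (p.1 ×ˢ p.2).image (fun z => s(z.1, z.2)) with hT
  have hTc : ∀ p ∈ F, (T p).card = s * s := by
    intro p hp
    obtain ⟨h1, h2⟩ := mem_filter.1 hp
    obtain ⟨h3, h4⟩ := mem_product.1 h1
    rw [hT]
    dsimp only
    rw [card_image_of_injOn, card_product, (mem_powersetCard.1 h3).2, (mem_powersetCard.1 h4).2]
    intro z hz z' hz' hzz
    have hz1 := mem_product.1 (mem_coe.1 hz)
    have hz2 := mem_product.1 (mem_coe.1 hz')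
    rcases Sym2.eq_iff.1 hzz with ⟨e1, e2⟩ | ⟨e1, e2⟩
    · exact Prod.ext e1 e2
    · exact absurd (e1 ▸ hz1.1) (fun h => (Finset.disjoint_left.1 h2) h hz2.2)
  have hS : ∀ p ∈ F,
      (univ.filter fun ω : Sym2 (Fin N) → Fin (r + 1) =>
        ∀ e ∈ T p, ω e ≠ 0).card * (r + 1) ^ (s * s) = r ^ (s * s) * Q := by
    intro p hp
    have h := GSI.count_pi r (univ.erase (0 : Fin (r + 1))) (T p)
    rw [hTc p hp] at h
    simp only [mem_erase, mem_univ, and_true, card_erase_of_mem, card_univ, Fintype.card_fin,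
      Nat.add_sub_cancel] at h
    exact h
  have hsub : (univ.filter fun ω : Sym2 (Fin N) → Fin (r + 1) => HasHole s ω) ⊆
      F.biUnion fun p =>
        univ.filter fun ω : Sym2 (Fin N) → Fin (r + 1) => ∀ e ∈ T p, ω e ≠ 0 := by
    intro ω hω
    obtain ⟨A, B, h1, h2, h3, h4⟩ := (mem_filter.1 hω).2
    rw [mem_biUnion]
    refine ⟨(A, B), mem_filter.2 ⟨mem_product.2 ⟨mem_powersetCard.2 ⟨subset_univ _, h1⟩,
      mem_powersetCard.2 ⟨subset_univ _, h2⟩⟩, h3⟩, mem_filter.2 ⟨mem_univ _, ?_⟩⟩
    intro e he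
    obtain ⟨z, hz, rfl⟩ := mem_image.1 he
    obtain ⟨hz1, hz2⟩ := mem_product.1 hz
    exact h4 _ hz1 _ hz2
  have hpos : 0 < (r + 1) ^ (s * s) := Nat.pow_pos (Nat.succ_pos r)
  have hFc : F.card ≤ 2 ^ (2 * N) := by
    calc F.card ≤ ((univ : Finset (Fin N)).powersetCard s ×ˢ
          (univ : Finset (Fin N)).powersetCard s).card := card_le_card (filter_subset _ _)
      _ = N.choose s * N.choose s := by
          rw [card_product, card_powersetCard, card_univ, Fintype.card_fin]
      _ ≤ 2 ^ N * 2 ^ N := Nat.mul_le_mul (Nat.choose_le_two_pow N s) (Nat.choose_le_two_pow N s)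
      _ = 2 ^ (2 * N) := by rw [← pow_add]; congr 1; ring
  apply Nat.le_of_mul_le_mul_right _ hpos
  calc 4 * (univ.filter fun ω : Sym2 (Fin N) → Fin (r + 1) => HasHole s ω).card
        * (r + 1) ^ (s * s)
      ≤ 4 * (∑ p ∈ F, (univ.filter fun ω : Sym2 (Fin N) → Fin (r + 1) =>
            ∀ e ∈ T p, ω e ≠ 0).card) * (r + 1) ^ (s * s) := by
        apply Nat.mul_le_mul_right
        apply Nat.mul_le_mul_left
        exact (card_le_card hsub).trans card_biUnion_le
    _ = 4 * (∑ p ∈ F, (r ^ (s * s) * Q)) := by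
        rw [mul_assoc, Finset.sum_mul]
        congr 1
        exact Finset.sum_congr rfl hS
    _ = 4 * (F.card * (r ^ (s * s) * Q)) := by
        rw [sum_const, smul_eq_mul]
    _ ≤ 4 * (2 ^ (2 * N) * (r ^ (s * s) * Q)) := by
        apply Nat.mul_le_mul_left
        exact Nat.mul_le_mul_right _ hFc
    _ = (2 ^ (2 * N + 2) * r ^ (s * s)) * Q := by rw [pow_add]; ring
    _ ≤ (r + 1) ^ (s * s) * Q := Nat.mul_le_mul_right _ (GSI.two_pow_mul _ _ _ hs)
    _ = Q * (r + 1) ^ (s * s) := mul_comm _ _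

theorem exists_good (g D r N s : ℕ) (hN : N = D * (r + 1))
    (hs : (2 * N + 2) * (r + 1) ≤ s * s) :
    ∃ ω : Sym2 (Fin N) → Fin (r + 1), ¬ HasHole s ω ∧ GSI.X g ω < 2 * GSI.C1 g D := by
  classical
  by_contra hcon
  push Not at hcon
  have h1 := GSI.sum_X g D r N hN
  have h2 := card_hasHole r N s hs
  set Q := (r + 1) ^ (Fintype.card (Sym2 (Fin N))) with hQ
  have hQpos : 0 < Q := Nat.pow_pos (Nat.succ_pos r)
  have hcard : Fintype.card (Sym2 (Fin N) → Fin (r + 1)) = Q := by
    rw [Fintype.card_fun, Fintype.card_fin]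
  have h3 : (univ.filter fun ω : Sym2 (Fin N) → Fin (r + 1) => ¬ HasHole s ω).card *
      (2 * GSI.C1 g D) ≤ ∑ ω : Sym2 (Fin N) → Fin (r + 1), GSI.X g ω := by
    calc (univ.filter fun ω : Sym2 (Fin N) → Fin (r + 1) => ¬ HasHole s ω).card * (2 * GSI.C1 g D)
        = ∑ ω ∈ univ.filter (fun ω : Sym2 (Fin N) → Fin (r + 1) => ¬ HasHole s ω),
            (2 * GSI.C1 g D) := by
          rw [sum_const, smul_eq_mul]
      _ ≤ ∑ ω ∈ univ.filter (fun ω : Sym2 (Fin N) → Fin (r + 1) => ¬ HasHole s ω), GSI.X g ω :=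
          Finset.sum_le_sum fun ω hω => hcon ω (mem_filter.1 hω).2
      _ ≤ ∑ ω : Sym2 (Fin N) → Fin (r + 1), GSI.X g ω :=
          Finset.sum_le_sum_of_subset (filter_subset _ _)
  have h4 : (univ.filter fun ω : Sym2 (Fin N) → Fin (r + 1) => HasHole s ω).card +
      (univ.filter fun ω : Sym2 (Fin N) → Fin (r + 1) => ¬ HasHole s ω).card = Q := by
    rw [← hcard, ← card_univ]
    exact Finset.card_filter_add_card_filter_not _
  have hC := GSI.C1_pos g D
  set a := (univ.filter fun ω : Sym2 (Fin N) → Fin (r + 1) => HasHole s ω).card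
  set b := (univ.filter fun ω : Sym2 (Fin N) → Fin (r + 1) => ¬ HasHole s ω).card
  have h5 : Q < 2 * b := by omega
  have h6 : b * (2 * GSI.C1 g D) ≤ GSI.C1 g D * Q := h3.trans h1
  have h7 : GSI.C1 g D * (2 * b) ≤ GSI.C1 g D * Q := by
    calc GSI.C1 g D * (2 * b) = b * (2 * GSI.C1 g D) := by ring
      _ ≤ _ := h6
  have h8 := Nat.le_of_mul_le_mul_left h7 hC
  omega

/-- Sparse blow-ups: `G` has no short cycles, maps to `G₀`, its fibres have at most `M` vertices,
few vertices are missing, and its stable sets are not much denser than those of `G₀`. -/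
theorem exists_sparse {V₀ : Type} [Fintype V₀] [Nonempty V₀] (G₀ : SimpleGraph V₀) (g a q : ℕ)
    (hq : 1 ≤ q)
    (hG₀ : ∀ T : Finset V₀, (∀ u ∈ T, ∀ v ∈ T, ¬ G₀.Adj u v) → T.card ≤ a) :
    ∃ (M : ℕ) (V : Type) (_ : Fintype V) (G : SimpleGraph V) (φ : V → V₀), 1 ≤ M ∧
      (∀ u v, G.Adj u v → G₀.Adj (φ u) (φ v)) ∧
      (∀ x, {v : V | φ v = x}.ncard ≤ M) ∧
      q * (Fintype.card V₀ * M) ≤ q * Fintype.card V + Fintype.card V₀ * M ∧
      (∀ (v : V) (p : G.Walk v v), p.IsCycle → g < p.length) ∧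
      ∀ S : Finset V, (∀ u ∈ S, ∀ v ∈ S, ¬ G.Adj u v) →
        q * S.card ≤ (q * a + Fintype.card V₀) * M := by
  classical
  set n₀ : ℕ := Fintype.card V₀ with hn₀
  have hn₀1 : 1 ≤ n₀ := Fintype.card_pos
  set σ : ℕ := 2 * n₀ * q + 2 with hσ
  set D : ℕ := n₀ * (q * σ) with hD
  set r : ℕ := 2 * GSI.C1 g D with hr
  set s : ℕ := σ * (r + 1) with hs
  set M : ℕ := q * s with hM
  set N : ℕ := n₀ * M with hN
  have hND : N = D * (r + 1) := by rw [hN, hM, hs, hD]; ring
  have hs1 : 1 ≤ s := by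
    rw [hs]
    exact Nat.mul_pos (by omega) (Nat.succ_pos r)
  have hM1 : 1 ≤ M := by rw [hM]; exact Nat.mul_pos hq hs1
  have hbig : (2 * N + 2) * (r + 1) ≤ s * s := by
    have h1 : 2 * N + 2 ≤ σ * s := by
      have h2 : σ * s = 2 * (n₀ * (q * s)) + 2 * s := by rw [hσ]; ring
      rw [h2, hN, hM]
      omega
    calc (2 * N + 2) * (r + 1) ≤ σ * s * (r + 1) := Nat.mul_le_mul_right _ h1
      _ = s * s := by rw [hs]; ring
  obtain ⟨ω, hhole, hX⟩ := exists_good g D r N s hND hbig
  obtain ⟨Z, hZ, hdel⟩ := GSI.exists_del g ω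
  have e : Fin N ≃ V₀ × Fin M := Fintype.equivOfCardEq (by
    rw [Fintype.card_fin, Fintype.card_prod, Fintype.card_fin])
  set φ₀ : Fin N → V₀ := fun v => (e v).1 with hφ₀
  have hfib : ∀ x, (univ.filter fun v : Fin N => φ₀ v = x).card = M := by
    intro x
    have h1 : (univ.filter fun v : Fin N => φ₀ v = x).card = (univ : Finset (Fin M)).card := by
      refine Finset.card_nbij' (fun v => (e v).2) (fun i => e.symm (x, i)) ?_ ?_ ?_ ?_
      · exact fun _ _ => mem_coe.2 (mem_univ _)
      · intro i _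
        rw [mem_coe, mem_filter]
        refine ⟨mem_univ _, ?_⟩
        show (e (e.symm (x, i))).1 = x
        rw [Equiv.apply_symm_apply]
      · intro v hv
        have h2 : (e v).1 = x := (mem_filter.1 (mem_coe.1 hv)).2
        show e.symm (x, (e v).2) = v
        rw [← h2]
        exact e.symm_apply_apply v
      · intro i _
        show (e (e.symm (x, i))).2 = i
        rw [Equiv.apply_symm_apply]
    rw [h1, card_univ, Fintype.card_fin]
  set W : Set (Fin N) := {x | x ∉ Z} with hW
  set G : SimpleGraph (Fin N) := GSI.Gr ω ⊓ SimpleGraph.comap φ₀ G₀ with hG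
  have hGr : G ≤ GSI.Gr ω := inf_le_left
  refine ⟨M, W, inferInstance, G.induce W, fun v => φ₀ v, hM1, ?_, ?_, ?_, ?_, ?_⟩
  · intro u v huv
    exact huv.2
  · intro x
    have h1 : (Subtype.val '' {v : W | φ₀ v = x}).ncard = {v : W | φ₀ v = x}.ncard :=
      Set.ncard_image_of_injective _ Subtype.val_injective
    rw [← h1, ← hfib x, ← Set.ncard_coe_finset]
    refine Set.ncard_le_ncard ?_ (Set.toFinite _)
    rintro _ ⟨v, hv, rfl⟩
    rw [mem_coe, mem_filter]
    exact ⟨mem_univ _, hv⟩
  · have h1 : Fintype.card W + Z.card = N := by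
      have h2 : Fintype.card W = (univ.filter fun x : Fin N => x ∉ Z).card := by
        rw [Fintype.card_subtype]
        rfl
      have h3 : (univ.filter fun x : Fin N => x ∈ Z).card = Z.card := by
        congr 1
        ext x
        simp
      have h4 := Finset.card_filter_add_card_filter_not (s := (univ : Finset (Fin N)))
        (fun x => x ∈ Z)
      rw [card_univ, Fintype.card_fin] at h4
      omega
    have h5 : q * Z.card ≤ N := by
      have h6 : Z.card ≤ s := by
        have : r + 1 ≤ s := by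
          rw [hs]
          exact Nat.le_mul_of_pos_left _ (by omega)
        omega
      calc q * Z.card ≤ q * s := Nat.mul_le_mul_left _ h6
        _ ≤ n₀ * (q * s) := Nat.le_mul_of_pos_left _ hn₀1
    have h7 : q * N = q * Fintype.card W + q * Z.card := by
      rw [← Nat.mul_add]
      exact congrArg (q * ·) h1.symm
    show q * N ≤ q * Fintype.card W + N
    omega
  · intro v p hp
    by_contra hlen
    push Not at hlen
    set p₁ := p.map (SimpleGraph.Embedding.induce (G := G) W).toHom with hp₁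
    have hcyc₁ : p₁.IsCycle :=
      (SimpleGraph.Walk.isCycle_map_iff_of_injective
        (SimpleGraph.Embedding.induce (G := G) W).injective).2 hp
    set p' := p₁.map (SimpleGraph.Hom.ofLE hGr) with hp'
    have hcyc : p'.IsCycle :=
      (SimpleGraph.Walk.isCycle_map_iff_of_injective Function.injective_id).2 hcyc₁
    have hlen' : p'.length = p.length := by
      rw [hp', hp₁, SimpleGraph.Walk.length_map, SimpleGraph.Walk.length_map]
    obtain ⟨h1, h2, h3⟩ := GSI.cycle_bad ω p' hcyc
    obtain ⟨z, hz1, hz2⟩ := hdel _ h1 (by rw [h2, hlen']; exact hlen) h3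
    rw [List.mem_toFinset, hp', SimpleGraph.Walk.support_map, List.mem_map] at hz1
    obtain ⟨w, hw1, hw⟩ := hz1
    rw [hp₁, SimpleGraph.Walk.support_map, List.mem_map] at hw1
    obtain ⟨w', _, hw'⟩ := hw1
    have h4 : (w' : Fin N) = z := by
      rw [← hw, ← hw']
      rfl
    exact w'.2 (h4 ▸ hz2)
  · intro S hS
    -- the heavy fibres
    set S' : Finset (Fin N) := S.map (Function.Embedding.subtype _) with hS'
    have hScard : S'.card = S.card := card_map _
    have hS'Z : ∀ v ∈ S', ∃ w ∈ S, (w : Fin N) = v := by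
      intro v hv
      obtain ⟨w, hw, hwv⟩ := mem_map.1 hv
      exact ⟨w, hw, hwv⟩
    set T : Finset V₀ := univ.filter fun x => s ≤ (S'.filter fun v => φ₀ v = x).card with hT
    have hTs : ∀ u ∈ T, ∀ v ∈ T, ¬ G₀.Adj u v := by
      intro x hx y hy hxy
      obtain ⟨A, hA1, hA2⟩ := exists_subset_card_eq (mem_filter.1 hx).2
      obtain ⟨B, hB1, hB2⟩ := exists_subset_card_eq (mem_filter.1 hy).2
      refine hhole ⟨A, B, hA2, hB2, ?_, ?_⟩
      · rw [Finset.disjoint_left]
        intro v hvA hvB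
        have h1 := (mem_filter.1 (hA1 hvA)).2
        have h2 := (mem_filter.1 (hB1 hvB)).2
        rw [← h1, ← h2] at hxy
        exact G₀.loopless.irrefl _ hxy
      · intro u hu v hv h0
        have h1 := mem_filter.1 (hA1 hu)
        have h2 := mem_filter.1 (hB1 hv)
        obtain ⟨u', hu', rfl⟩ := hS'Z u h1.1
        obtain ⟨v', hv', rfl⟩ := hS'Z v h2.1
        refine hS u' hu' v' hv' ⟨?_, ?_⟩
        · show (GSI.Gr ω).Adj u' v'
          rw [GSI.Gr, SimpleGraph.fromEdgeSet_adj]
          refine ⟨h0, fun hne => ?_⟩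
          have h3 := h1.2
          have h4 := h2.2
          rw [hne, h4] at h3
          rw [h3] at hxy
          exact G₀.loopless.irrefl _ hxy
        · show G₀.Adj (φ₀ u') (φ₀ v')
          rw [h1.2, h2.2]
          exact hxy
    have hTa := hG₀ T hTs
    -- count
    have h1 : S'.card = ∑ x, (S'.filter fun v => φ₀ v = x).card :=
      Finset.card_eq_sum_card_fiberwise fun v _ => mem_coe.2 (mem_univ _)
    have h2 : ∑ x, (S'.filter fun v => φ₀ v = x).card ≤
        ∑ x, ((if x ∈ T then M else 0) + s) := by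
      refine sum_le_sum fun x _ => ?_
      by_cases hx : x ∈ T
      · rw [if_pos hx]
        have h3 : (S'.filter fun v => φ₀ v = x).card ≤ M := by
          rw [← hfib x]
          exact card_le_card (filter_subset_filter _ (subset_univ _))
        omega
      · rw [if_neg hx]
        have h3 : ¬ s ≤ (S'.filter fun v => φ₀ v = x).card := fun h =>
          hx (mem_filter.2 ⟨mem_univ _, h⟩)
        omega
    have h3 : ∑ x, ((if x ∈ T then M else 0) + s) = T.card * M + n₀ * s := by
      rw [sum_add_distrib, sum_ite_mem, univ_inter, sum_const, smul_eq_mul, sum_const, card_univ,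
        smul_eq_mul]
    have h4 : S.card ≤ a * M + n₀ * s := by
      rw [← hScard, h1]
      refine h2.trans ?_
      rw [h3]
      exact Nat.add_le_add_right (Nat.mul_le_mul_right _ hTa) _
    calc q * S.card ≤ q * (a * M + n₀ * s) := Nat.mul_le_mul_left _ h4
      _ = (q * a + n₀) * M := by rw [hM]; ring

end Pool.Agent.Lib.MP_cff830_lc.Sparse
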