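import Pool.Agent.Lib.FracGS.Gap
import Pool.Agent.Lib.FGF.Main
import Pool.Agent.Lib.GSI.Erdos

/-!
# The linear programme with triangle constraints on graphs without an induced forest
-/

set_option autoImplicit false
set_option linter.unusedSectionVars false

namespace Pool.Agent.Lib.MP_cff830_lc.TriGap

open Finset Classical
open Pool.Agent.Lib.MP_cff830_lc (IsVertexCover)
open Pool.Agent.Lib.FracGS (NoOdd walk_lower walk_upper)

/-- Graphs of large girth without large stable sets. -/
theorem exists_girth_stable (g c : ℕ) (hc : 1 ≤ c) : ∃ (V : Type) (_ : Fintype V)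
    (G : SimpleGraph V), (∀ (v : V) (p : G.Walk v v), p.IsCycle → g < p.length) ∧
      ∀ S : Finset V, (∀ u ∈ S, ∀ v ∈ S, ¬ G.Adj u v) → c * S.card < Fintype.card V := by
  classical
  set D : ℕ := 2 * c * (4 * c + 5) with hD
  set r : ℕ := 4 * GSI.C1 g D with hr
  set s : ℕ := (4 * c + 5) * (r + 1) with hs
  set N : ℕ := 2 * c * s with hN
  have hND : N = D * (r + 1) := by rw [hN, hs, hD]; ring
  have hbig : (N + 2) * (r + 1) ≤ s.choose 2 := by
    rw [Nat.choose_two_right, Nat.le_div_iff_mul_le (by norm_num)]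
    have h1 : (4 * c + 4) * (r + 1) ≤ s - 1 := by
      rw [hs]
      have : (4 * c + 5) * (r + 1) = (4 * c + 4) * (r + 1) + (r + 1) := by ring
      omega
    have hs1 : 1 ≤ s := by rw [hs]; nlinarith
    calc (N + 2) * (r + 1) * 2 = (4 * c * s + 4) * (r + 1) := by rw [hN]; ring
      _ ≤ (4 * c * s + 4 * s) * (r + 1) := by
          apply Nat.mul_le_mul_right; omega
      _ = s * ((4 * c + 4) * (r + 1)) := by ring
      _ ≤ s * (s - 1) := Nat.mul_le_mul_left _ h1
  obtain ⟨ω, hind, hX⟩ := GSI.exists_good g D r N s hND hbig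
  obtain ⟨Z, hZ, hdel⟩ := GSI.exists_del g ω
  set W : Set (Fin N) := {x | x ∉ Z} with hW
  refine ⟨W, inferInstance, (GSI.Gr ω).induce W, ?_, ?_⟩
  · intro v p hp
    by_contra hlen
    push Not at hlen
    set p' := p.map (SimpleGraph.Embedding.induce (G := GSI.Gr ω) W).toHom with hp'
    have hcyc : p'.IsCycle :=
      (SimpleGraph.Walk.isCycle_map_iff_of_injective
        (SimpleGraph.Embedding.induce (G := GSI.Gr ω) W).injective).2 hp
    have hlen' : p'.length = p.length := SimpleGraph.Walk.length_map _ _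
    obtain ⟨h1, h2, h3⟩ := GSI.cycle_bad ω p' hcyc
    obtain ⟨z, hz1, hz2⟩ := hdel _ h1 (by rw [h2, hlen']; exact hlen) h3
    rw [List.mem_toFinset, hp', SimpleGraph.Walk.support_map, List.mem_map] at hz1
    obtain ⟨w, _, hw⟩ := hz1
    have : (w : Fin N) = z := hw
    exact w.2 (this ▸ hz2)
  · intro S hS
    have hs1 : 1 ≤ s := by rw [hs]; nlinarith
    have hZ2 : Z.card ≤ c * s := by
      have : 2 * GSI.C1 g D ≤ r := by omega
      have h2 : r ≤ s := by rw [hs]; nlinarith
      have h3 : s ≤ c * s := by nlinarith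
      omega
    have hcardW : c * s ≤ Fintype.card W := by
      have h4 : Fintype.card W = N - Z.card := by
        have : Fintype.card W = (Zᶜ : Finset (Fin N)).card := by
          rw [← Fintype.card_coe]
          apply Fintype.card_congr
          exact Equiv.subtypeEquivRight (fun x => by simp [hW])
        rw [this, card_compl, Fintype.card_fin]
      have h5 : N = c * s + c * s := by rw [hN]; ring
      omega
    have hlt : S.card < s := by
      by_contra hcon
      push Not at hcon
      obtain ⟨S', hS1, hS2⟩ := Finset.exists_subset_card_eq hcon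
      apply hind
      refine ⟨S'.map (Function.Embedding.subtype _), by rw [card_map, hS2], ?_⟩
      intro e he h0
      rw [mem_image] at he
      obtain ⟨⟨x, z⟩, hxz, rfl⟩ := he
      rw [mem_offDiag] at hxz
      obtain ⟨hx, hz, hne⟩ := hxz
      rw [mem_map] at hx hz
      obtain ⟨x', hx', rfl⟩ := hx
      obtain ⟨z', hz', rfl⟩ := hz
      have hadj : ((GSI.Gr ω).induce W).Adj x' z' := by
        show (GSI.Gr ω).Adj x' z'
        rw [GSI.Gr, SimpleGraph.fromEdgeSet_adj]
        exact ⟨h0, hne⟩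
      exact hS x' (hS1 hx') z' (hS1 hz') hadj
    calc c * S.card < c * s := Nat.mul_lt_mul_of_pos_left hlt hc
      _ ≤ Fintype.card W := hcardW

/-- Rounding a feasible point of the odd walk linear programme. -/
theorem rounding (L : ℕ) (K : ℝ) (hK' : 1 ≤ K) (n : ℕ) (F : SimpleGraph (Fin n))
    (hheavy : ∀ (V : Type) [Fintype V] (G : SimpleGraph V), NoOdd G L →
      IsEmpty (F ↪g G) → ∀ μ : V → ℝ, (∀ v, 0 ≤ μ v) →
        ∃ T : Finset V, (∀ u ∈ T, ∀ v ∈ T, ¬ G.Adj u v) ∧ ∑ v, μ v ≤ K * ∑ v ∈ T, μ v) :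
    ∃ ε : ℝ, 0 < ε ∧ ε ≤ 1 ∧
    ∀ (V : Type) [Fintype V] (G : SimpleGraph V), IsEmpty (F ↪g G) →
      ∀ w x : V → ℝ, (∀ v, 0 ≤ w v) → (∀ v, 0 ≤ x v) →
        (∀ u v, G.Adj u v → 1 ≤ x u + x v) →
        (∀ (v : V) (p : G.Walk v v), Odd p.length → p.length ≤ 2 * L + 1 →
          ((p.length : ℝ) + 1) / 2 ≤ (p.support.tail.map x).sum) →
        ∃ C : Finset V, IsVertexCover G C ∧ ∑ v ∈ C, w v ≤ (2 - ε) * ∑ v, w v * x v := by
  set δ : ℝ := 1 / (8 * K * (2 * L + 1)) with hδ
  have hL0 : (0 : ℝ) ≤ L := Nat.cast_nonneg L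
  have hδ0 : 0 < δ := by positivity
  have hδ1 : δ * (8 * K * (2 * L + 1)) = 1 := by
    rw [hδ]; field_simp
  have hδ2 : δ * (2 * L + 1) ≤ 1 / 8 := by
    have : δ * (2 * L + 1) * K = 1 / 8 := by linarith [hδ1]
    have h0 : 0 ≤ δ * (2 * L + 1) := by positivity
    nlinarith
  have hδ3 : δ * K ≤ 1 / 8 := by
    have : δ * K * (2 * L + 1) = 1 / 8 := by linarith [hδ1]
    have h0 : 0 ≤ δ * K := by positivity
    nlinarith
  have hδ4 : δ ≤ 1 / 8 := by nlinarith
  refine ⟨δ, hδ0, by linarith, ?_⟩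
  intro V _ G hG w x hw hx hE hO
  -- the middle part
  let B : Set V := {v | 1 / 2 - δ ≤ x v ∧ x v ≤ 1 / 2 + δ}
  let H : SimpleGraph B := G.induce B
  have hH : IsEmpty (F ↪g H) :=
    ⟨fun e => hG.elim (e.trans (SimpleGraph.Embedding.induce B))⟩
  have hodd : NoOdd H L := by
    intro v p hp
    by_contra hne
    rw [Nat.not_even_iff_odd] at hne
    let φ : H →g G := (SimpleGraph.Embedding.induce B).toHom
    have h1 := hO (φ v) (p.map φ) (by rw [SimpleGraph.Walk.length_map]; exact hne)
      (by rw [SimpleGraph.Walk.length_map]; exact hp)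
    rw [SimpleGraph.Walk.length_map, SimpleGraph.Walk.support_map, ← List.map_tail,
      List.map_map] at h1
    have h2 : (p.support.tail.map (x ∘ φ)).sum ≤ p.length * (1 / 2 + δ) :=
      walk_upper H (x ∘ φ) (1 / 2 + δ) (fun b => b.2.2) p
    have h3 : ((p.length : ℝ) + 1) / 2 ≤ p.length * (1 / 2 + δ) := h1.trans h2
    have h4 : (p.length : ℝ) ≤ 2 * L + 1 := by exact_mod_cast hp
    have h5 : (p.length : ℝ) * δ ≤ (2 * L + 1) * δ := by nlinarith
    nlinarith
  obtain ⟨T, hT1, hT2⟩ := hheavy B H hodd hH (fun v => w v.1) (fun v => hw v.1)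
  -- the cover
  let T' : Finset V := T.map (Function.Embedding.subtype _)
  have hT'B : ∀ v ∈ T', v ∈ B := by
    intro v hv
    obtain ⟨b, _, rfl⟩ := Finset.mem_map.mp hv
    exact b.2
  have hT's : ∀ u ∈ T', ∀ v ∈ T', ¬ G.Adj u v := by
    intro u hu v hv huv
    obtain ⟨a, ha, rfl⟩ := Finset.mem_map.mp hu
    obtain ⟨b, hb, rfl⟩ := Finset.mem_map.mp hv
    exact hT1 a ha b hb huv
  let D : Finset V := Finset.univ.filter fun v => 1 / 2 - δ ≤ x v ∧ v ∉ T'
  refine ⟨D, ?_, ?_⟩
  · intro u v huv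
    have h1 := hE u v huv
    by_contra hcon
    push Not at hcon
    obtain ⟨hu, hv⟩ := hcon
    have hu' : x u < 1 / 2 - δ ∨ u ∈ T' := by
      by_contra h
      push Not at h
      exact hu (Finset.mem_filter.mpr ⟨Finset.mem_univ _, h.1, h.2⟩)
    have hv' : x v < 1 / 2 - δ ∨ v ∈ T' := by
      by_contra h
      push Not at h
      exact hv (Finset.mem_filter.mpr ⟨Finset.mem_univ _, h.1, h.2⟩)
    rcases hu' with hu' | hu' <;> rcases hv' with hv' | hv'
    · linarith
    · have := (hT'B v hv').2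
      linarith
    · have := (hT'B u hu').2
      linarith
    · exact hT's u hu' v hv' huv
  · -- weights
    have hT3 : ∑ v ∈ T, w v.1 = ∑ v ∈ T', w v := by
      rw [Finset.sum_map]; rfl
    have hB : ∑ b : B, w b.1 = ∑ v ∈ Finset.univ.filter (fun v => v ∈ B), w v := by
      rw [← Finset.sum_subtype_eq_sum_filter]
      simp
    rw [hT3, hB] at hT2
    set wB : ℝ := ∑ v ∈ Finset.univ.filter (fun v => v ∈ B), w v with hwB
    set wT : ℝ := ∑ v ∈ T', w v with hwT
    set wC : ℝ := ∑ v ∈ Finset.univ.filter (fun v => 1 / 2 + δ < x v), w v with hwC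
    have hwB0 : 0 ≤ wB := Finset.sum_nonneg fun v _ => hw v
    have hwC0 : 0 ≤ wC := Finset.sum_nonneg fun v _ => hw v
    -- the weight of the cover
    have hdis2 : Disjoint (Finset.univ.filter (fun v => v ∈ B))
        (Finset.univ.filter (fun v => 1 / 2 + δ < x v)) := by
      rw [Finset.disjoint_left]
      intro v hv hv'
      have h1 := ((Finset.mem_filter.mp hv).2).2
      have h2 := (Finset.mem_filter.mp hv').2
      linarith
    have e1 : ∑ v ∈ D, w v + wT = wB + wC := by
      have hdis : Disjoint D T' := by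
        rw [Finset.disjoint_left]
        intro v hv
        exact (Finset.mem_filter.mp hv).2.2
      rw [hwT, hwB, hwC, ← Finset.sum_union hdis, ← Finset.sum_union hdis2]
      refine Finset.sum_congr ?_ fun _ _ => rfl
      ext v
      simp only [Finset.mem_union, Finset.mem_filter, Finset.mem_univ, true_and, D]
      constructor
      · rintro (⟨h1, h2⟩ | h)
        · by_cases h3 : x v ≤ 1 / 2 + δ
          · exact Or.inl ⟨h1, h3⟩
          · exact Or.inr (not_le.mp h3)
        · exact Or.inl (hT'B v h)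
      · rintro (h | h)
        · by_cases h3 : v ∈ T'
          · exact Or.inr h3
          · exact Or.inl ⟨h.1, h3⟩
        · by_cases h3 : v ∈ T'
          · exact Or.inr h3
          · exact Or.inl ⟨by linarith, h3⟩
    have e2 : (1 / 2 - δ) * wB + (1 / 2 + δ) * wC ≤ ∑ v, w v * x v := by
      calc (1 / 2 - δ) * wB + (1 / 2 + δ) * wC
          ≤ ∑ v ∈ Finset.univ.filter (fun v => v ∈ B), w v * x v +
            ∑ v ∈ Finset.univ.filter (fun v => 1 / 2 + δ < x v), w v * x v := by
            rw [hwB, hwC, Finset.mul_sum, Finset.mul_sum]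
            refine add_le_add (Finset.sum_le_sum fun v hv => ?_)
              (Finset.sum_le_sum fun v hv => ?_)
            · have h1 := ((Finset.mem_filter.mp hv).2).1
              nlinarith [hw v]
            · have h1 := (Finset.mem_filter.mp hv).2
              nlinarith [hw v]
        _ = ∑ v ∈ Finset.univ.filter (fun v => v ∈ B) ∪
              Finset.univ.filter (fun v => 1 / 2 + δ < x v), w v * x v :=
            (Finset.sum_union hdis2).symm
        _ ≤ ∑ v, w v * x v :=
            Finset.sum_le_sum_of_subset_of_nonneg (Finset.subset_univ _)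
              fun v _ _ => mul_nonneg (hw v) (hx v)
    have e3 : ∑ v ∈ D, w v = wB + wC - wT := by linarith
    rw [e3]
    have h2δ : 0 < 2 - δ := by linarith
    have e4 : (2 - δ) * ((1 / 2 - δ) * wB + (1 / 2 + δ) * wC) ≤ (2 - δ) * ∑ v, w v * x v :=
      mul_le_mul_of_nonneg_left e2 h2δ.le
    refine le_trans ?_ e4
    -- `wB ≤ K wT`
    have e5 : δ * wB ≤ 1 / 8 * wT := by
      have : δ * wB ≤ δ * K * wT := by
        have := mul_le_mul_of_nonneg_left hT2 hδ0.le
        linarith
      have hwT0 : 0 ≤ wT := Finset.sum_nonneg fun v _ => hw v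
      nlinarith
    nlinarith [mul_nonneg hδ0.le hwC0, mul_nonneg (mul_nonneg hδ0.le hδ0.le) hwC0,
      mul_nonneg (mul_nonneg hδ0.le hδ0.le) hwB0, mul_nonneg hδ0.le hwB0]


/-- Heavy stable sets in graphs without a triangle and without an induced copy of a forest. -/
theorem heavy_tri (n : ℕ) (F : SimpleGraph (Fin n)) (hF : F.IsAcyclic) : ∃ K : ℝ, 1 ≤ K ∧
    ∀ (V : Type) [Fintype V] (G : SimpleGraph V), NoOdd G 1 →
      IsEmpty (F ↪g G) → ∀ μ : V → ℝ, (∀ v, 0 ≤ μ v) →
        ∃ T : Finset V, (∀ u ∈ T, ∀ v ∈ T, ¬ G.Adj u v) ∧ ∑ v, μ v ≤ K * ∑ v ∈ T, μ v := by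
  obtain ⟨C, hC, h⟩ := Pool.Agent.Lib.FGF.fractional (Fin n) F hF 3
  refine ⟨max C 1, le_max_right _ _, ?_⟩
  intro V _ G hodd hG μ hμ
  have hcf : G.CliqueFree 3 := by
    intro s hs
    rw [SimpleGraph.is3Clique_iff] at hs
    obtain ⟨a, b, c, hab, hac, hbc, -⟩ := hs
    have h1 := hodd a (SimpleGraph.Walk.cons hab (SimpleGraph.Walk.cons hbc
      (SimpleGraph.Walk.cons hac.symm SimpleGraph.Walk.nil))) (by simp)
    simp only [SimpleGraph.Walk.length_cons, SimpleGraph.Walk.length_nil] at h1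
    exact absurd h1 (by decide)
  obtain ⟨T, -, hT1, hT2⟩ := h V G hcf hG μ hμ
  exact ⟨T, hT1, hT2.trans (mul_le_mul_of_nonneg_right (le_max_left _ _)
    (Finset.sum_nonneg fun v _ => hμ v))⟩

/-- In a graph of girth larger than `g` every closed walk of length at most `g` is even. -/
theorem even_of_girth {V : Type} (G : SimpleGraph V) (g : ℕ)
    (hg : ∀ (v : V) (p : G.Walk v v), p.IsCycle → g < p.length) {v : V} (p : G.Walk v v)
    (hp : p.length ≤ g) : Even p.length := by
  have hsub : ∀ e, e ∈ p.edges → e ∈ (SimpleGraph.fromEdgeSet {e | e ∈ p.edges}).edgeSet := by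
    intro e he
    rw [SimpleGraph.edgeSet_fromEdgeSet]
    exact ⟨he, G.not_isDiag_of_mem_edgeSet (p.edges_subset_edgeSet he)⟩
  have hle : ∀ e, e ∈ (SimpleGraph.fromEdgeSet {e | e ∈ p.edges}).edgeSet → e ∈ p.edges := by
    intro e he
    rw [SimpleGraph.edgeSet_fromEdgeSet] at he
    exact he.1
  have hac : (SimpleGraph.fromEdgeSet {e | e ∈ p.edges}).IsAcyclic := by
    intro u q hq
    have h1 : ∀ e, e ∈ q.edges → e ∈ G.edgeSet := fun e he =>
      p.edges_subset_edgeSet (hle e (q.edges_subset_edgeSet he))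
    have h2 := hg u (q.transfer G h1) (hq.transfer h1)
    rw [SimpleGraph.Walk.length_transfer] at h2
    have h3 : q.length ≤ p.length := by
      rw [← SimpleGraph.Walk.length_edges, ← SimpleGraph.Walk.length_edges,
        ← List.toFinset_card_of_nodup hq.edges_nodup]
      refine le_trans (Finset.card_le_card ?_) (List.toFinset_card_le p.edges)
      intro e he
      rw [List.mem_toFinset] at he ⊢
      exact hle e (q.edges_subset_edgeSet he)
    omega
  have h4 := (SimpleGraph.two_colorable_iff_forall_loop_even.1 hac.colorable_two) v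
    (p.transfer _ hsub)
  rwa [SimpleGraph.Walk.length_transfer] at h4

end Pool.Agent.Lib.MP_cff830_lc.TriGap
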